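import Pool.Agent.helper96.NLG.Pre
import Pool.Agent.helper81.NL.Det

set_option autoImplicit false

/-!
# Guesses after the negations: the lower bound
-/

namespace Pool.Agent.helper96.NLG

open Pool.Agent.helper81.NL

/-- Circuits with at most `(2 - ε) log₂ n` NOT gates, none of which depends on a guess, and with at
most `n ^ c` guess bits need at least `2 ^ (n ^ c)` gates to decide the clique problem. -/
theorem pre_lower (ε : ℝ) (hε : 0 < ε) : ∃ c : ℝ, 0 < c ∧ ∃ n₀ : ℕ, ∀ n ≥ n₀, ∀ k g : ℕ,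
    (n : ℝ) ^ ε ≤ k → 2 * k ≤ n →
    ∀ C : List (Gate ((Fin n × Fin n) ⊕ (Fin g × Bool))), GuessClique n k g C → NotsFirst C →
      (negations C : ℝ) ≤ (2 - ε) * Real.logb 2 n → (g : ℝ) ≤ (n : ℝ) ^ c →
      (2 : ℝ) ^ ((n : ℝ) ^ c) ≤ C.length := by
  obtain ⟨c0, hc0, n0, h⟩ := main2 ε hε
  have ht : Filter.Tendsto (fun n : ℕ => (n : ℝ) ^ (c0 / 2)) Filter.atTop Filter.atTop :=
    (tendsto_rpow_atTop (by positivity)).comp tendsto_natCast_atTop_atTop
  obtain ⟨n1, hn1⟩ := (ht.eventually_ge_atTop 4).exists_forall_of_atTop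
  refine ⟨c0 / 2, by positivity, max n0 n1, ?_⟩
  intro n hn k g hk1 hk2 C hC hN ht2 hg
  have h4 : (4 : ℝ) ≤ (n : ℝ) ^ (c0 / 2) := hn1 n (le_trans (le_max_right _ _) hn)
  by_contra hcon
  push Not at hcon
  obtain ⟨D, hD1, hD2, hD3⟩ := pre_expand C hN
  have hDC : DecidesClique n k D := by
    intro G _
    rw [hD3]
    exact hC G
  have hDn : (negations D : ℝ) ≤ (2 - ε) * Real.logb 2 n := by
    refine le_trans ?_ ht2
    exact_mod_cast hD1
  have key := h n (le_trans (le_max_left _ _) hn) k hk1 hk2 D hDC hDn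
  set t := (n : ℝ) ^ (c0 / 2) with htd
  have hn0 : (0 : ℝ) ≤ n := Nat.cast_nonneg n
  have htt : (n : ℝ) ^ c0 = t * t := by
    rw [htd, ← Real.rpow_add' hn0 (by linarith)]
    congr 1
    ring
  set A := (2 : ℝ) ^ t with hA
  have hA1 : 1 ≤ A := Real.one_le_rpow (by norm_num) (by linarith)
  have hgA : (2 : ℝ) ^ g ≤ A := by
    rw [hA, ← Real.rpow_natCast]
    exact Real.rpow_le_rpow_of_exponent_le (by norm_num) hg
  have hD2' : (D.length : ℝ) ≤ ((2 : ℝ) ^ g + 1) * (C.length + 2) + 1 := by exact_mod_cast hD2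
  have hlen : (D.length : ℝ) ≤ 7 * (A * A) := by
    have h5 : ((2 : ℝ) ^ g + 1) * (C.length + 2) ≤ (A + 1) * (A + 2) := by
      apply mul_le_mul (by linarith) (by linarith) (by positivity) (by linarith)
    nlinarith
  have hbig : (8 : ℝ) * (A * A) ≤ (2 : ℝ) ^ ((n : ℝ) ^ c0) := by
    rw [htt, hA, ← Real.rpow_add (by norm_num)]
    have h8 : (8 : ℝ) = (2 : ℝ) ^ (3 : ℝ) := by norm_num
    rw [h8, ← Real.rpow_add (by norm_num)]
    apply Real.rpow_le_rpow_of_exponent_le (by norm_num)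
    nlinarith
  nlinarith [mul_pos (lt_of_lt_of_le one_pos hA1) (lt_of_lt_of_le one_pos hA1)]

end Pool.Agent.helper96.NLG
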