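import Pool.Agent.helper81.NL.Seq

set_option autoImplicit false

/-!
# Guesses after the negations: expansion

Circuits with guess literals in which no NOT gate depends on a guess. Expanding over the `2 ^ g`
guesses gives a circuit without guesses with the same number of NOT gates, because the gates which
do not depend on the guesses are shared.
-/

namespace Pool.Agent.helper96.NLG

open Pool.Agent.helper81.NL

variable {V : Type} {g : ℕ}

/-- Does the gate depend on a guess, if `l` tells it for the earlier gates? -/
def depG (l : List Bool) : Gate (V ⊕ (Fin g × Bool)) → Bool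
  | Gate.var (Sum.inl _) => false
  | Gate.var (Sum.inr _) => true
  | Gate.const _ => false
  | Gate.and a b => l.getD a false || l.getD b false
  | Gate.or a b => l.getD a false || l.getD b false
  | Gate.not a => l.getD a false

/-- Which gates depend on a guess? -/
def deps : List (Gate (V ⊕ (Fin g × Bool))) → List Bool
  | [] => []
  | e :: C => depG (deps C) e :: deps C

/-- No NOT gate depends on a guess. -/
def NotsFirst : List (Gate (V ⊕ (Fin g × Bool))) → Prop
  | [] => True
  | e :: C => (e.isNot = true → depG (deps C) e = false) ∧ NotsFirst C

/-- Circuits without NOT gates. -/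
theorem notsFirst_of_mono (C : List (Gate (V ⊕ (Fin g × Bool)))) (h : negations C = 0) :
    NotsFirst C := by
  induction C with
  | nil => trivial
  | cons e C ih =>
    unfold negations at h ih
    rw [List.countP_cons] at h
    refine ⟨fun he => ?_, ih (by omega)⟩
    rw [if_pos he] at h
    omega

theorem val_indep (C : List (Gate (V ⊕ (Fin g × Bool)))) (e : Gate (V ⊕ (Fin g × Bool)))
    (x : V → Bool) (y y' : Fin g → Bool)
    (ih : ∀ a, (deps C).getD a false = false →
      (run (guessInput x y) C).getD a false = (run (guessInput x y') C).getD a false)
    (h : depG (deps C) e = false) :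
    e.val (guessInput x y) (run (guessInput x y) C) =
      e.val (guessInput x y') (run (guessInput x y') C) := by
  cases e with
  | var v =>
    cases v with
    | inl v => rfl
    | inr q => simp [depG] at h
  | const b => rfl
  | and a b =>
    have h4 : (deps C).getD a false = false ∧ (deps C).getD b false = false := by
      simpa only [depG, Bool.or_eq_false_iff] using h
    simp only [Gate.val, ih a h4.1, ih b h4.2]
  | or a b =>
    have h4 : (deps C).getD a false = false ∧ (deps C).getD b false = false := by
      simpa only [depG, Bool.or_eq_false_iff] using h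
    simp only [Gate.val, ih a h4.1, ih b h4.2]
  | not a =>
    have h4 : (deps C).getD a false = false := h
    simp only [Gate.val, ih a h4]

theorem run_indep (C : List (Gate (V ⊕ (Fin g × Bool)))) (x : V → Bool) (y y' : Fin g → Bool) :
    ∀ a, (deps C).getD a false = false →
      (run (guessInput x y) C).getD a false = (run (guessInput x y') C).getD a false := by
  induction C with
  | nil => intro a _; simp [run]
  | cons e C ih =>
    intro a ha
    cases a with
    | zero =>
      rw [deps, List.getD_cons_zero] at ha
      rw [run, run, List.getD_cons_zero, List.getD_cons_zero]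
      exact val_indep C e x y y' ih ha
    | succ a =>
      rw [deps, List.getD_cons_succ] at ha
      rw [run, run, List.getD_cons_succ, List.getD_cons_succ]
      exact ih a ha

/-- one more gate -/
theorem has1_cons (C : List (Gate (V ⊕ (Fin g × Bool)))) (e : Gate (V ⊕ (Fin g × Bool)))
    (y : Fin g → Bool) (P : ℕ → Prop) (E : List (Gate V)) (D : List (Gate V))
    (h : ∀ a, P (a + 1) → Has1 D fun x => (run (guessInput x y) C).getD a false)
    (h0 : P 0 → Has1 (E ++ D) fun x => e.val (guessInput x y) (run (guessInput x y) C)) :
    ∀ a, P a → Has1 (E ++ D) fun x => (run (guessInput x y) (e :: C)).getD a false := by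
  intro a ha
  cases a with
  | zero => simpa only [run, List.getD_cons_zero] using h0 ha
  | succ a => simpa only [run, List.getD_cons_succ] using (h a ha).append E

/-- the part which does not depend on the guesses -/
theorem pre_shared (C : List (Gate (V ⊕ (Fin g × Bool)))) (y : Fin g → Bool) :
    ∃ D : List (Gate V), negations D ≤ negations C ∧ D.length ≤ C.length + 1 ∧
      ∀ a, (deps C).getD a false = false →
        Has1 D fun x => (run (guessInput x y) C).getD a false := by
  induction C with
  | nil =>
    refine ⟨[Gate.const false], by simp [negations, Gate.isNot], by simp, fun a _ => ?_⟩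
    refine ⟨0, by simp, fun x => ?_⟩
    simp [run, Gate.val]
  | cons e C ih =>
    obtain ⟨D, hD1, hD2, hD3⟩ := ih
    -- it is enough to find the new gate
    have key : (∃ e' : Gate V, (e'.isNot = true → e.isNot = true) ∧
        (depG (deps C) e = false →
          Has1 ([e'] ++ D) fun x => e.val (guessInput x y) (run (guessInput x y) C))) →
        ∃ D : List (Gate V), negations D ≤ negations (e :: C) ∧ D.length ≤ (e :: C).length + 1 ∧
          ∀ a, (deps (e :: C)).getD a false = false →
            Has1 D fun x => (run (guessInput x y) (e :: C)).getD a false := by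
      rintro ⟨e', he', hh⟩
      refine ⟨[e'] ++ D, ?_, ?_, ?_⟩
      · unfold negations at hD1 ⊢
        rw [List.singleton_append, List.countP_cons, List.countP_cons]
        by_cases h3 : e'.isNot = true
        · rw [if_pos h3, if_pos (he' h3)]
          omega
        · rw [if_neg h3]
          omega
      · simp only [List.length_append, List.length_cons, List.length_nil]
        omega
      · refine has1_cons C e y (fun a => (deps (e :: C)).getD a false = false) [e'] D ?_ ?_
        · intro a ha
          rw [deps, List.getD_cons_succ] at ha
          exact hD3 a ha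
        · intro ha
          rw [deps, List.getD_cons_zero] at ha
          exact hh ha
    apply key
    cases e with
    | var v =>
      cases v with
      | inl v => exact ⟨Gate.var v, by simp [Gate.isNot], fun _ => has1_var D v⟩
      | inr q =>
        refine ⟨Gate.const false, by simp [Gate.isNot], fun h => ?_⟩
        simp [depG] at h
    | const b => exact ⟨Gate.const b, by simp [Gate.isNot], fun _ => has1_const D b⟩
    | and a b =>
      by_cases h3 : depG (deps C) (Gate.and a b : Gate (V ⊕ (Fin g × Bool))) = false
      · have h4 : (deps C).getD a false = false ∧ (deps C).getD b false = false := by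
          simpa only [depG, Bool.or_eq_false_iff] using h3
        obtain ⟨e', he', hh⟩ := Has1.and (hD3 a h4.1) (hD3 b h4.2)
        exact ⟨e', by simp [he'], fun _ => hh⟩
      · exact ⟨Gate.const false, by simp [Gate.isNot], fun h => absurd h h3⟩
    | or a b =>
      by_cases h3 : depG (deps C) (Gate.or a b : Gate (V ⊕ (Fin g × Bool))) = false
      · have h4 : (deps C).getD a false = false ∧ (deps C).getD b false = false := by
          simpa only [depG, Bool.or_eq_false_iff] using h3
        obtain ⟨e', he', hh⟩ := Has1.or (hD3 a h4.1) (hD3 b h4.2)
        exact ⟨e', by simp [he'], fun _ => hh⟩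
      · exact ⟨Gate.const false, by simp [Gate.isNot], fun h => absurd h h3⟩
    | not a =>
      by_cases h3 : (deps C).getD a false = false
      · obtain ⟨e', hh⟩ := Has1.not (hD3 a h3)
        exact ⟨e', by simp [Gate.isNot], fun _ => hh⟩
      · exact ⟨Gate.const false, by simp [Gate.isNot], fun h => absurd h h3⟩

/-- the part which depends on the guesses, for one guess -/
theorem pre_copy (C : List (Gate (V ⊕ (Fin g × Bool)))) (hC : NotsFirst C) (y : Fin g → Bool)
    (D : List (Gate V)) (hD : ∀ a, (deps C).getD a false = false →
      Has1 D fun x => (run (guessInput x y) C).getD a false) :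
    ∃ E : List (Gate V), negations E = 0 ∧ E.length ≤ C.length + 1 ∧
      ∀ a, Has1 (E ++ D) fun x => (run (guessInput x y) C).getD a false := by
  induction C with
  | nil =>
    refine ⟨[Gate.const false], by simp [negations, Gate.isNot], by simp, fun a => ?_⟩
    refine ⟨0, by simp, fun x => ?_⟩
    simp [run, Gate.val]
  | cons e C ih =>
    obtain ⟨h1, h2⟩ := hC
    obtain ⟨E, hE1, hE2, hE3⟩ := ih h2 (fun a ha => by
      have := hD (a + 1) (by rw [deps, List.getD_cons_succ]; exact ha)
      simpa only [run, List.getD_cons_succ] using this)
    have key : (∃ e' : Gate V, e'.isNot = false ∧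
        Has1 (e' :: (E ++ D)) fun x => e.val (guessInput x y) (run (guessInput x y) C)) →
        ∃ E : List (Gate V), negations E = 0 ∧ E.length ≤ (e :: C).length + 1 ∧
          ∀ a, Has1 (E ++ D) fun x => (run (guessInput x y) (e :: C)).getD a false := by
      rintro ⟨e', he', hh⟩
      refine ⟨[e'] ++ E, ?_, ?_, ?_⟩
      · unfold negations at hE1 ⊢
        rw [List.singleton_append, List.countP_cons, hE1, he']
        simp
      · simp only [List.length_append, List.length_cons, List.length_nil]
        omega
      · intro a
        rw [List.append_assoc]
        exact has1_cons C e y (fun _ => True) [e'] (E ++ D) (fun a _ => hE3 a) (fun _ => hh) a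
          trivial
    apply key
    -- a gate which does not depend on the guesses
    have hfree : depG (deps C) e = false → ∃ e' : Gate V, e'.isNot = false ∧
        Has1 (e' :: (E ++ D)) fun x => e.val (guessInput x y) (run (guessInput x y) C) := by
      intro h
      have h3 := hD 0 (by rw [deps, List.getD_cons_zero]; exact h)
      refine ⟨Gate.const false, rfl, ?_⟩
      have h4 := (h3.append E).append [Gate.const false]
      simpa only [run, List.getD_cons_zero, List.singleton_append] using h4
    cases e with
    | var v =>
      cases v with
      | inl v => exact ⟨Gate.var v, rfl, has1_var (E ++ D) v⟩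
      | inr q => exact ⟨Gate.const (y q.1 == q.2), rfl, has1_const (E ++ D) _⟩
    | const b => exact ⟨Gate.const b, rfl, has1_const (E ++ D) b⟩
    | and a b => exact Has1.and (hE3 a) (hE3 b)
    | or a b => exact Has1.or (hE3 a) (hE3 b)
    | not a => exact hfree (h1 rfl)

/-- the disjunction over the guesses of a list -/
theorem pre_any (C : List (Gate (V ⊕ (Fin g × Bool)))) (hC : NotsFirst C)
    (D : List (Gate V)) (hD : ∀ a, (deps C).getD a false = false → ∀ y : Fin g → Bool,
      Has1 D fun x => (run (guessInput x y) C).getD a false) (ys : List (Fin g → Bool)) :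
    ∃ E : List (Gate V), negations E = 0 ∧ E.length ≤ ys.length * (C.length + 2) + 1 ∧
      Has1 (E ++ D) fun x => ys.any fun y => eval C (guessInput x y) := by
  induction ys with
  | nil =>
    refine ⟨[Gate.const false], by simp [negations, Gate.isNot], by simp, ?_⟩
    refine ⟨0, by simp, fun x => ?_⟩
    simp [run, Gate.val]
  | cons y ys ih =>
    obtain ⟨E, hE1, hE2, hE3⟩ := ih
    obtain ⟨E', hE1', hE2', hE3'⟩ := pre_copy C hC y (E ++ D)
      (fun a ha => (hD a ha y).append E)
    obtain ⟨e, he, hh⟩ := Has1.or (hE3' 0) (hE3.append E')
    refine ⟨e :: (E' ++ E), ?_, ?_, ?_⟩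
    · unfold negations at hE1 hE1' ⊢
      rw [List.countP_cons, List.countP_append, hE1, hE1', he]
      simp
    · simp only [List.length_append, List.length_cons]
      nlinarith
    · rw [List.cons_append, List.append_assoc]
      exact hh

/-- **Expansion.** -/
theorem pre_expand (C : List (Gate (V ⊕ (Fin g × Bool)))) (hC : NotsFirst C) :
    ∃ D : List (Gate V), negations D ≤ negations C ∧
      D.length ≤ (2 ^ g + 1) * (C.length + 2) + 1 ∧
      ∀ x, eval D x = true ↔ Accepts C x := by
  obtain ⟨D, hD1, hD2, hD3⟩ := pre_shared C fun _ => false
  have hD4 : ∀ a, (deps C).getD a false = false → ∀ y : Fin g → Bool,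
      Has1 D fun x => (run (guessInput x y) C).getD a false := by
    intro a ha y
    obtain ⟨b, hb, hb'⟩ := hD3 a ha
    refine ⟨b, hb, fun x => ?_⟩
    rw [hb' x]
    exact run_indep C x _ y a ha
  obtain ⟨E, hE1, hE2, hE3⟩ := pre_any C hC D hD4 (Finset.univ : Finset (Fin g → Bool)).toList
  obtain ⟨e, he, hh⟩ := Has1.output hE3
  have hlen : (Finset.univ : Finset (Fin g → Bool)).toList.length = 2 ^ g := by
    rw [Finset.length_toList, Finset.card_univ, Fintype.card_fun, Fintype.card_bool,
      Fintype.card_fin]
  rw [hlen] at hE2
  refine ⟨e :: (E ++ D), ?_, ?_, fun x => ?_⟩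
  · unfold negations at hE1 hD1 ⊢
    rw [List.countP_cons, List.countP_append, hE1, he]
    simpa using hD1
  · simp only [List.length_append, List.length_cons]
    nlinarith
  · rw [hh x, List.any_eq_true]
    unfold Accepts
    constructor
    · rintro ⟨y, -, hy⟩
      exact ⟨y, hy⟩
    · rintro ⟨y, hy⟩
      exact ⟨y, Finset.mem_toList.2 (Finset.mem_univ y), hy⟩

end Pool.Agent.helper96.NLG
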